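import Mathlib

/-!
# Averaging over pairs (prime, character) (helper file for MP_79850a_al)

PROOF. `X = A →* ℂˣ` is finite of order `|A|`. For `p ∈ I` put `T p = {ψ : ψ = 1 on S p}`. It has
`|A| / |S p|` elements (it is `A ⧸ S p →* ℂˣ`), so `|T p| * |S p| ≤ |X|`. For `ℓ = 2, 3` and `ψ ∈ X` let
`J ℓ ψ` be the set of the `p ∈ I` with `ψ ∉ T p` or `ℓ ∣ |S p|`. Then
`3/5 * #{ψ : p ∈ J 2 ψ} + 2/5 * #{ψ : p ∈ J 3 ψ} ≥ 4/5 * |X|` for every `p ∈ I`:
if `6 ∣ |S p|` the left side is `|X|`; if only `2` divides it is at least `3/5 + 2/5 * 1/2`;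
if only `3` divides it is at least `3/5 * 2/3 + 2/5`; if none divides, `|S p| ≥ 5` and it is at least
`4/5`. Multiply by `w p` and sum over `p ∈ I`: the average of `∑ p ∈ J ℓ ψ, w p` is at least
`4/5 * ∑ p ∈ I, w p`.
-/

set_option autoImplicit false

namespace Pool.Agent.DF26

theorem nezero_exp (A : Type*) [CommGroup A] [Finite A] :
    NeZero ((Monoid.exponent A : ℕ) : ℂ) :=
  ⟨by exact_mod_cast (Monoid.exponent_ne_zero_of_finite (G := A))⟩

theorem card_dual (A : Type*) [CommGroup A] [Finite A] : Nat.card (A →* ℂˣ) = Nat.card A := by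
  have := nezero_exp A
  exact Nat.card_congr (CommGroup.monoidHom_mulEquiv_of_hasEnoughRootsOfUnity A ℂ).some.toEquiv

theorem finite_dual (A : Type*) [CommGroup A] [Finite A] : Finite (A →* ℂˣ) := by
  have := nezero_exp A
  exact Finite.of_equiv A
    (CommGroup.monoidHom_mulEquiv_of_hasEnoughRootsOfUnity A ℂ).some.symm.toEquiv

theorem card_triv_mul {A : Type*} [CommGroup A] [Finite A] (S : Subgroup A) :
    Nat.card {ψ : A →* ℂˣ // ∀ s ∈ S, ψ s = 1} * Nat.card S ≤ Nat.card (A →* ℂˣ) := by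
  have h1 : Nat.card {ψ : A →* ℂˣ // ∀ s ∈ S, ψ s = 1} ≤ Nat.card (A ⧸ S →* ℂˣ) := by
    have := finite_dual (A ⧸ S)
    refine Nat.card_le_card_of_injective
      (fun ψ : {ψ : A →* ℂˣ // ∀ s ∈ S, ψ s = 1} => QuotientGroup.lift S ψ.1 ψ.2) ?_
    intro ψ φ h
    apply Subtype.ext
    ext a
    have h2 := DFunLike.congr_fun h (a : A ⧸ S)
    simp only [QuotientGroup.lift_mk] at h2
    rw [h2]
  rw [card_dual, Subgroup.card_eq_card_quotient_mul_card_subgroup S]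
  rw [card_dual] at h1
  exact Nat.mul_le_mul_right _ h1

theorem exists_good' {A : Type*} [CommGroup A] [Finite A]
    (I : Finset ℕ) (S : ℕ → Subgroup A) (hS : ∀ p ∈ I, S p ≠ ⊥) (w : ℕ → ℝ)
    (hw : ∀ p ∈ I, 0 ≤ w p) :
    ∃ ℓ : ℕ, ℓ.Prime ∧ ∃ ψ : A →* ℂˣ, ∃ J : Finset ℕ, J ⊆ I ∧
      (∀ p ∈ J, (∃ s ∈ S p, ψ s ≠ 1) ∨ ℓ ∣ Nat.card (S p)) ∧
      4 / 5 * ∑ p ∈ I, w p ≤ ∑ p ∈ J, w p := by
  classical
  have hfin := finite_dual A
  let _ : Fintype (A →* ℂˣ) := Fintype.ofFinite _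
  let good : ℕ → (A →* ℂˣ) → ℕ → Prop := fun ℓ ψ p => (∃ s ∈ S p, ψ s ≠ 1) ∨ ℓ ∣ Nat.card (S p)
  let J : ℕ → (A →* ℂˣ) → Finset ℕ := fun ℓ ψ => I.filter (good ℓ ψ)
  by_contra hcon
  push Not at hcon
  have hlt : ∀ ℓ : ℕ, ℓ.Prime → ∀ ψ, ∑ p ∈ J ℓ ψ, w p < 4 / 5 * ∑ p ∈ I, w p := by
    intro ℓ hℓ ψ
    exact hcon ℓ hℓ ψ (J ℓ ψ) (Finset.filter_subset _ _) (fun p hp => (Finset.mem_filter.1 hp).2)
  set N : ℝ := (Fintype.card (A →* ℂˣ) : ℝ) with hN
  have hNpos : 0 < N := by rw [hN]; exact_mod_cast Fintype.card_pos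
  -- the count
  have hcount : ∀ p ∈ I, 4 / 5 * N ≤
      3 / 5 * ((Finset.univ.filter (fun ψ => good 2 ψ p)).card : ℝ) +
      2 / 5 * ((Finset.univ.filter (fun ψ => good 3 ψ p)).card : ℝ) := by
    intro p hp
    have hall : ∀ ℓ, ℓ ∣ Nat.card (S p) →
        ((Finset.univ.filter (fun ψ => good ℓ ψ p)).card : ℝ) = N := by
      intro ℓ hℓ
      rw [hN, Finset.filter_true_of_mem (fun ψ _ => Or.inr hℓ), Finset.card_univ]
    have hsome : ∀ (ℓ : ℕ) (m : ℝ), 0 < m → m ≤ Nat.card (S p) →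
        N * (1 - 1 / m) ≤ ((Finset.univ.filter (fun ψ => good ℓ ψ p)).card : ℝ) := by
      intro ℓ m hm hmc
      have h1 := card_triv_mul (S p)
      have h2 : Nat.card {ψ : A →* ℂˣ // ∀ s ∈ S p, ψ s = 1} =
          (Finset.univ.filter (fun ψ : A →* ℂˣ => ∀ s ∈ S p, ψ s = 1)).card := by
        rw [Nat.card_eq_fintype_card, Fintype.card_subtype]
      have h3 : Nat.card (A →* ℂˣ) = Fintype.card (A →* ℂˣ) := Nat.card_eq_fintype_card
      rw [h2, h3] at h1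
      set T := Finset.univ.filter (fun ψ : A →* ℂˣ => ∀ s ∈ S p, ψ s = 1) with hT
      have h4 : (T.card : ℝ) * m ≤ N := by
        refine le_trans (mul_le_mul_of_nonneg_left hmc (Nat.cast_nonneg _)) ?_
        rw [hN]
        exact_mod_cast h1
      have h5 : (T.card : ℝ) ≤ N / m := by
        rw [le_div_iff₀ hm]
        exact h4
      have h6 : Fintype.card (A →* ℂˣ) ≤
          (Finset.univ.filter (fun ψ => good ℓ ψ p)).card + T.card := by
        rw [← Finset.card_univ]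
        refine (Finset.card_le_card ?_).trans (Finset.card_union_le _ _)
        intro ψ _
        rw [Finset.mem_union, Finset.mem_filter, hT, Finset.mem_filter]
        by_cases h : ∀ s ∈ S p, ψ s = 1
        · exact Or.inr ⟨Finset.mem_univ _, h⟩
        · left
          push Not at h
          exact ⟨Finset.mem_univ _, Or.inl h⟩
      have h7 : N ≤ ((Finset.univ.filter (fun ψ => good ℓ ψ p)).card : ℝ) + T.card := by
        rw [hN]
        exact_mod_cast h6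
      have h8 : N * (1 - 1 / m) = N - N / m := by ring
      rw [h8]
      linarith
    have hpos : 0 < Nat.card (S p) := Nat.card_pos
    have hne1 : Nat.card (S p) ≠ 1 := fun h => hS p hp (Subgroup.card_eq_one.1 h)
    by_cases h2 : 2 ∣ Nat.card (S p) <;> by_cases h3 : 3 ∣ Nat.card (S p)
    · rw [hall 2 h2, hall 3 h3]; linarith
    · rw [hall 2 h2]
      have h := hsome 3 2 (by norm_num) (by exact_mod_cast Nat.le_of_dvd hpos h2)
      linarith
    · rw [hall 3 h3]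
      have h := hsome 2 3 (by norm_num) (by exact_mod_cast Nat.le_of_dvd hpos h3)
      linarith
    · have h5 : 5 ≤ Nat.card (S p) := by
        have : Nat.card (S p) ≠ 2 := fun h => h2 (by rw [h])
        have : Nat.card (S p) ≠ 3 := fun h => h3 (by rw [h])
        have : Nat.card (S p) ≠ 4 := fun h => h2 (by rw [h]; decide)
        omega
      have h := hsome 2 5 (by norm_num) (by exact_mod_cast h5)
      have h' := hsome 3 5 (by norm_num) (by exact_mod_cast h5)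
      linarith
  have hsum : ∀ ℓ, ∑ ψ : A →* ℂˣ, ∑ p ∈ J ℓ ψ, w p =
      ∑ p ∈ I, w p * ((Finset.univ.filter (fun ψ => good ℓ ψ p)).card : ℝ) := by
    intro ℓ
    simp only [J, Finset.sum_filter]
    rw [Finset.sum_comm]
    refine Finset.sum_congr rfl fun p _ => ?_
    rw [← Finset.sum_filter, Finset.sum_const, nsmul_eq_mul, mul_comm]
  have hup : ∀ ℓ : ℕ, ℓ.Prime → ∑ ψ : A →* ℂˣ, ∑ p ∈ J ℓ ψ, w p < N * (4 / 5 * ∑ p ∈ I, w p) := by
    intro ℓ hℓ
    have h1 : ∑ ψ : A →* ℂˣ, ∑ p ∈ J ℓ ψ, w p < ∑ _ψ : A →* ℂˣ, (4 / 5 * ∑ p ∈ I, w p) :=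
      Finset.sum_lt_sum_of_nonempty Finset.univ_nonempty fun ψ _ => hlt ℓ hℓ ψ
    rwa [Finset.sum_const, nsmul_eq_mul, Finset.card_univ] at h1
  have h2 := hup 2 Nat.prime_two
  have h3 := hup 3 Nat.prime_three
  rw [hsum] at h2 h3
  have h4 : ∑ p ∈ I, w p * (4 / 5 * N) ≤
      ∑ p ∈ I, w p * (3 / 5 * ((Finset.univ.filter (fun ψ => good 2 ψ p)).card : ℝ) +
      2 / 5 * ((Finset.univ.filter (fun ψ => good 3 ψ p)).card : ℝ)) :=
    Finset.sum_le_sum fun p hp => mul_le_mul_of_nonneg_left (hcount p hp) (hw p hp)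
  rw [← Finset.sum_mul] at h4
  have h5 : ∑ p ∈ I, w p * (3 / 5 * ((Finset.univ.filter (fun ψ => good 2 ψ p)).card : ℝ) +
      2 / 5 * ((Finset.univ.filter (fun ψ => good 3 ψ p)).card : ℝ)) =
      3 / 5 * ∑ p ∈ I, w p * ((Finset.univ.filter (fun ψ => good 2 ψ p)).card : ℝ) +
      2 / 5 * ∑ p ∈ I, w p * ((Finset.univ.filter (fun ψ => good 3 ψ p)).card : ℝ) := by
    rw [Finset.mul_sum, Finset.mul_sum, ← Finset.sum_add_distrib]
    refine Finset.sum_congr rfl fun p _ => ?_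
    ring
  rw [h5] at h4
  nlinarith

theorem exists_good {A : Type*} [Group A] [Finite A] (hA : ∀ a b : A, a * b = b * a)
    (I : Finset ℕ) (S : ℕ → Subgroup A) (hS : ∀ p ∈ I, S p ≠ ⊥) (w : ℕ → ℝ)
    (hw : ∀ p ∈ I, 0 ≤ w p) :
    ∃ ℓ : ℕ, ℓ.Prime ∧ ∃ ψ : A →* ℂˣ, ∃ J : Finset ℕ, J ⊆ I ∧
      (∀ p ∈ J, (∃ s ∈ S p, ψ s ≠ 1) ∨ ℓ ∣ Nat.card (S p)) ∧
      4 / 5 * ∑ p ∈ I, w p ≤ ∑ p ∈ J, w p := by
  let _ : CommGroup A := { ‹Group A› with mul_comm := hA }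
  exact exists_good' I S hS w hw

end Pool.Agent.DF26
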