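import Mathlib
import Pool.Agent.FV86.CycInf

/-!
# Degrees of composita (helper file for MP_79850a_al)

PROOF of `relfinrank_sup_anti`: put `E = A ⊔ F`. Over the base field `A` we have
`[B ⊔ E : A] ≤ [B : A] [E : A]` (`IntermediateField.finrank_sup_le`) and
`[B ⊔ E : A] = [B : A] [B ⊔ E : B]`, and `[B : A] ≠ 0`.
PROOF of `exists_factors`: induction on `I`; for `insert q I` put `e q = [C I ⊔ F q : C I]`, where
`C J = K ⊔ ⨆ p ∈ J, F p`, and use `relfinrank_sup_anti` for `C J ≤ C I`.
-/

set_option autoImplicit false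

namespace Pool.Agent.DF26

open Pool.Agent.FV86

theorem relfinrank_sup_anti {A B F : IntermediateField ℚ ℂ} (hAB : A ≤ B)
    (hB : FiniteDimensional ℚ B) (hF : FiniteDimensional ℚ F) :
    B.relfinrank (B ⊔ F) ≤ A.relfinrank (A ⊔ F) := by
  have h1 : A.relfinrank B * B.relfinrank (B ⊔ F) = A.relfinrank (B ⊔ F) :=
    IntermediateField.relfinrank_mul_relfinrank hAB le_sup_left
  have hfin : Module.finrank ℚ A * A.relfinrank B = Module.finrank ℚ B :=
    IntermediateField.finrank_bot_mul_relfinrank hAB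
  have hBpos : 0 < Module.finrank ℚ B := Module.finrank_pos
  have hpos : 0 < A.relfinrank B := by
    rcases Nat.eq_zero_or_pos (A.relfinrank B) with h | h
    · rw [h, Nat.mul_zero] at hfin
      omega
    · exact h
  have h2 : A.relfinrank (B ⊔ F) ≤ A.relfinrank B * A.relfinrank (A ⊔ F) := by
    have hAE : A ≤ A ⊔ F := le_sup_left
    have e : B ⊔ F = B ⊔ (A ⊔ F) := by rw [← sup_assoc, sup_eq_left.2 hAB]
    have h3 := IntermediateField.finrank_sup_le (IntermediateField.extendScalars hAB)
      (IntermediateField.extendScalars hAE)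
    rw [IntermediateField.extendScalars_sup] at h3
    rw [e, IntermediateField.relfinrank_eq_finrank_of_le (le_sup_of_le_left hAB),
      IntermediateField.relfinrank_eq_finrank_of_le hAB,
      IntermediateField.relfinrank_eq_finrank_of_le hAE]
    exact h3
  rw [← h1] at h2
  exact Nat.le_of_mul_le_mul_left h2 hpos

theorem relfinrank_pos {A B : IntermediateField ℚ ℂ} (hAB : A ≤ B) (hB : FiniteDimensional ℚ B) :
    0 < A.relfinrank B := by
  have hfin : Module.finrank ℚ A * A.relfinrank B = Module.finrank ℚ B :=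
    IntermediateField.finrank_bot_mul_relfinrank hAB
  have hBpos : 0 < Module.finrank ℚ B := Module.finrank_pos
  rcases Nat.eq_zero_or_pos (A.relfinrank B) with h | h
  · rw [h, Nat.mul_zero] at hfin
    omega
  · exact h

theorem exists_factors (K : IntermediateField ℚ ℂ) (hK : FiniteDimensional ℚ K)
    (F : ℕ → IntermediateField ℚ ℂ) (hF : ∀ p, FiniteDimensional ℚ (F p)) (I : Finset ℕ) :
    ∃ e : ℕ → ℕ, (∀ p, 0 < e p) ∧ K.relfinrank (K ⊔ ⨆ p ∈ I, F p) = ∏ p ∈ I, e p ∧
      ∀ J ⊆ I, ∏ p ∈ J, e p ≤ K.relfinrank (K ⊔ ⨆ p ∈ J, F p) := by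
  classical
  have hC : ∀ J : Finset ℕ, FiniteDimensional ℚ (K ⊔ ⨆ p ∈ J, F p : IntermediateField ℚ ℂ) := by
    intro J
    have : FiniteDimensional ℚ (⨆ p ∈ J, F p : IntermediateField ℚ ℂ) :=
      IntermediateField.finiteDimensional_iSup_of_finset
    exact IntermediateField.finiteDimensional_sup _ _
  have hins : ∀ (q : ℕ) (J : Finset ℕ), (K ⊔ ⨆ p ∈ insert q J, F p : IntermediateField ℚ ℂ) =
      (K ⊔ ⨆ p ∈ J, F p) ⊔ F q := by
    intro q J
    rw [Finset.iSup_insert, sup_comm (F q), sup_assoc]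
  have hmul : ∀ (q : ℕ) (J : Finset ℕ), K.relfinrank (K ⊔ ⨆ p ∈ insert q J, F p) =
      K.relfinrank (K ⊔ ⨆ p ∈ J, F p) *
        (K ⊔ ⨆ p ∈ J, F p : IntermediateField ℚ ℂ).relfinrank ((K ⊔ ⨆ p ∈ J, F p) ⊔ F q) := by
    intro q J
    rw [hins, IntermediateField.relfinrank_mul_relfinrank le_sup_left le_sup_left]
  induction I using Finset.induction_on with
  | empty =>
    refine ⟨fun _ => 1, fun _ => Nat.one_pos, ?_, ?_⟩
    · simp
    · intro J hJ
      have := Finset.subset_empty.1 hJ
      subst this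
      simp
  | insert q I hq ih =>
    obtain ⟨e, he, h1, h2⟩ := ih
    set r := (K ⊔ ⨆ p ∈ I, F p : IntermediateField ℚ ℂ).relfinrank ((K ⊔ ⨆ p ∈ I, F p) ⊔ F q)
      with hr
    have hrpos : 0 < r := by
      apply relfinrank_pos le_sup_left
      have := hC I
      have := hF q
      exact IntermediateField.finiteDimensional_sup _ _
    have hup : ∀ J : Finset ℕ, q ∉ J → ∏ p ∈ J, Function.update e q r p = ∏ p ∈ J, e p := by
      intro J hJ
      apply Finset.prod_congr rfl
      intro p hp
      have hne : p ≠ q := by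
        intro h
        rw [h] at hp
        exact hJ hp
      rw [Function.update_of_ne hne]
    refine ⟨Function.update e q r, ?_, ?_, ?_⟩
    · intro p
      by_cases hp : p = q
      · rw [hp, Function.update_self]
        exact hrpos
      · rw [Function.update_of_ne hp]
        exact he p
    · rw [hmul, Finset.prod_insert hq, hup I hq, Function.update_self, h1, mul_comm]
    · intro J hJ
      by_cases hqJ : q ∈ J
      · obtain ⟨J', hJ', rfl⟩ : ∃ J', q ∉ J' ∧ insert q J' = J :=
          ⟨J.erase q, Finset.notMem_erase q J, Finset.insert_erase hqJ⟩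
        have hJI : J' ⊆ I := by
          intro p hp
          have := hJ (Finset.mem_insert_of_mem hp)
          rcases Finset.mem_insert.1 this with h | h
          · exact absurd (h ▸ hp) hJ'
          · exact h
        rw [hmul, Finset.prod_insert hJ', hup J' hJ', Function.update_self, mul_comm]
        apply Nat.mul_le_mul (h2 J' hJI)
        apply relfinrank_sup_anti _ (hC I) (hF q)
        apply sup_le_sup_left
        exact biSup_mono fun p hp => hJI hp
      · rw [hup J hqJ]
        refine h2 J ?_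
        intro p hp
        rcases Finset.mem_insert.1 (hJ hp) with h | h
        · exact absurd (h ▸ hp) hqJ
        · exact h

theorem cyc_mul_le {a b : ℕ} (ha : a ≠ 0) (hb : b ≠ 0) (hab : Nat.Coprime a b) :
    cyc (a * b) ≤ cyc a ⊔ cyc b := by
  let z : ℕ → ℂ := fun n => Complex.exp (2 * Real.pi * Complex.I / n)
  have hz : ∀ n, z n ∈ cyc n := fun n => IntermediateField.mem_adjoin_simple_self ℚ _
  have hbez : z (a * b) = z a ^ (a.gcdB b) * z b ^ (a.gcdA b) := by
    simp only [z]
    rw [← Complex.exp_int_mul, ← Complex.exp_int_mul, ← Complex.exp_add]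
    congr 1
    have e1 : (1 : ℂ) = a * (a.gcdA b : ℂ) + b * (a.gcdB b : ℂ) := by
      have := Nat.gcd_eq_gcd_ab a b
      rw [hab] at this
      exact_mod_cast this
    have n1 : (a : ℂ) ≠ 0 := by exact_mod_cast ha
    have n2 : (b : ℂ) ≠ 0 := by exact_mod_cast hb
    rw [Nat.cast_mul]
    field_simp
    rw [e1]
    ring
  unfold cyc
  rw [IntermediateField.adjoin_le_iff]
  rintro x hx
  rw [Set.mem_singleton_iff] at hx
  have hx' : x = z (a * b) := hx
  rw [hx', hbez]
  have h1 : z a ∈ cyc a ⊔ cyc b := (le_sup_left : cyc a ≤ cyc a ⊔ cyc b) (hz a)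
  have h2 : z b ∈ cyc a ⊔ cyc b := (le_sup_right : cyc b ≤ cyc a ⊔ cyc b) (hz b)
  exact mul_mem (zpow_mem h1 _) (zpow_mem h2 _)

theorem cyc_prod_le (f : ℕ → ℕ) (J : Finset ℕ) (hJ : ∀ p ∈ J, p.Prime) :
    cyc (∏ p ∈ J, p ^ f p) ≤ ⨆ p ∈ J, cyc (p ^ f p) := by
  classical
  induction J using Finset.induction_on with
  | empty =>
    have h1 : (cyc 1 : IntermediateField ℚ ℂ) ≤ ⊥ := by
      unfold cyc
      rw [IntermediateField.adjoin_le_iff]
      rintro x hx
      rw [Set.mem_singleton_iff] at hx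
      subst hx
      have : Complex.exp (2 * Real.pi * Complex.I / (1 : ℕ)) = 1 := by
        rw [Nat.cast_one, div_one, Complex.exp_two_pi_mul_I]
      rw [this]
      exact one_mem _
    simpa using h1
  | insert q J hq ih =>
    rw [Finset.prod_insert hq, Finset.iSup_insert]
    have hqp := hJ q (Finset.mem_insert_self q J)
    have hJ' : ∀ p ∈ J, p.Prime := fun p hp => hJ p (Finset.mem_insert_of_mem hp)
    refine (cyc_mul_le (pow_ne_zero _ hqp.ne_zero) ?_ ?_).trans (sup_le_sup_left (ih hJ') _)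
    · exact Finset.prod_ne_zero_iff.2 fun p hp => pow_ne_zero _ (hJ' p hp).ne_zero
    · apply Nat.Coprime.prod_right
      intro p hp
      apply Nat.Coprime.pow
      rw [Nat.coprime_primes hqp (hJ' p hp)]
      exact fun h => hq (h ▸ hp)

/-- `ℚ_n` is generated by its subfields `ℚ_(p^a)`. -/
theorem cyc_le_iSup {n : ℕ} (hn : n ≠ 0) :
    cyc n ≤ ⨆ p ∈ n.primeFactors, cyc (p ^ n.factorization p) := by
  have h := cyc_prod_le (fun p => n.factorization p) n.primeFactors
    (fun p hp => Nat.prime_of_mem_primeFactors hp)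
  have e : ∏ p ∈ n.primeFactors, p ^ n.factorization p = n := by
    have := Nat.prod_factorization_pow_eq_self hn
    rwa [Finsupp.prod, Nat.support_factorization] at this
  rw [e] at h
  exact h

theorem iSup_le_cyc {n : ℕ} {J : Finset ℕ} (hJ : J ⊆ n.primeFactors) :
    ⨆ p ∈ J, cyc (p ^ n.factorization p) ≤ cyc (∏ p ∈ J, p ^ n.factorization p) := by
  apply iSup₂_le
  intro p hp
  apply cyc_mono
  · exact Finset.prod_pos fun q hq => pow_pos (Nat.prime_of_mem_primeFactors (hJ hq)).pos _
  · exact Finset.dvd_prod_of_mem (fun p => p ^ n.factorization p) hp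

end Pool.Agent.DF26
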