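import Mathlib
import Pool.Agent.DF26.Avg
import Pool.Agent.DF26.Deg
import Pool.Agent.CS26.Fin

/-!
# Deficiency with exponent 5/4 and approximate Feit (helper file for MP_79850a_al)
-/

set_option autoImplicit false

namespace Pool.Agent.DF26

open Pool.Agent.FV86 Pool.Agent.CS26

/-- The part of `n` composed of the primes in `J`. -/
noncomputable def pt (n : ℕ) (J : Finset ℕ) : ℕ := ∏ p ∈ J, p ^ n.factorization p

theorem pt_pos {n : ℕ} {J : Finset ℕ} (hJ : J ⊆ n.primeFactors) : 0 < pt n J :=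
  Finset.prod_pos fun _ hp => pow_pos (Nat.prime_of_mem_primeFactors (hJ hp)).pos _

theorem pt_mul {n : ℕ} (hn : n ≠ 0) {J : Finset ℕ} (hJ : J ⊆ n.primeFactors) :
    pt n J * pt n (n.primeFactors \ J) = n := by
  unfold pt
  rw [mul_comm, Finset.prod_sdiff hJ]
  exact Nat.prod_factorization_pow_eq_self hn

theorem pt_dvd {n : ℕ} (hn : n ≠ 0) {J : Finset ℕ} (hJ : J ⊆ n.primeFactors) : pt n J ∣ n :=
  ⟨_, (pt_mul hn hJ).symm⟩

theorem div_pt {n : ℕ} (hn : n ≠ 0) {J : Finset ℕ} (hJ : J ⊆ n.primeFactors) :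
    n / pt n J = pt n (n.primeFactors \ J) := by
  have h := pt_mul hn hJ
  exact Nat.div_eq_of_eq_mul_right (pt_pos hJ) h.symm

theorem pt_coprime {n : ℕ} {J J' : Finset ℕ} (hJ : J ⊆ n.primeFactors)
    (hJ' : J' ⊆ n.primeFactors) (hd : Disjoint J J') : (pt n J).Coprime (pt n J') := by
  unfold pt
  refine Nat.Coprime.prod_left fun p hp => Nat.Coprime.prod_right fun q hq => ?_
  refine Nat.Coprime.pow _ _ ?_
  refine (Nat.coprime_primes (Nat.prime_of_mem_primeFactors (hJ hp))
    (Nat.prime_of_mem_primeFactors (hJ' hq))).2 ?_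
  rintro rfl
  exact Finset.disjoint_left.1 hd hp hq

theorem pt_primeFactors {n : ℕ} {J : Finset ℕ} (hJ : J ⊆ n.primeFactors) {p : ℕ}
    (hp : p ∈ (pt n J).primeFactors) : p ∈ J := by
  have hpp := Nat.prime_of_mem_primeFactors hp
  have hd := Nat.dvd_of_mem_primeFactors hp
  unfold pt at hd
  obtain ⟨q, hq, hqd⟩ := (hpp.prime.dvd_finsetProd_iff _).1 hd
  have h1 := hpp.dvd_of_dvd_pow hqd
  rwa [(Nat.prime_dvd_prime_iff_eq hpp (Nat.prime_of_mem_primeFactors (hJ hq))).1 h1]

/-- The main statement: for every weight there is a large set `J` of prime divisors of `c(χ)` which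
contains all those with cyclic Sylow subgroups and such that some eigenvalue has order divisible by
the `J`-part of `c(χ)`. -/
theorem exists_weight {G V : Type*} [Group G] [Finite G] [AddCommGroup V] [Module ℂ V]
    [FiniteDimensional ℂ V] (ρ : Representation ℂ G V) [ρ.IsIrreducible] (w : ℕ → ℝ)
    (hw : ∀ p ∈ badPrimes G (conductor ρ.character), 0 ≤ w p) :
    ∃ J ⊆ (conductor ρ.character).primeFactors,
      (conductor ρ.character).primeFactors \ J ⊆ badPrimes G (conductor ρ.character) ∧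
      ∑ p ∈ (conductor ρ.character).primeFactors \ J, w p ≤
        (∑ p ∈ badPrimes G (conductor ρ.character), w p) / 5 ∧
      ∃ g z, Module.End.HasEigenvalue (ρ g) z ∧ pt (conductor ρ.character) J ∣ orderOf z := by
  classical
  set n := conductor ρ.character with hn
  have hc : 0 < n := conductor_pos ρ
  have hfd : FiniteDimensional ℚ (valueField ρ.character) :=
    finiteDimensional_of_le Nat.card_pos (valueField_le ρ)
  obtain ⟨ℓ, hℓ, ψ, J₀, hJ₀, hgood, hwt⟩ :=
    exists_good (A := valueField ρ.character ≃ₐ[ℚ] valueField ρ.character)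
      (comm_of_le Nat.card_pos (valueField_le ρ)) (badPrimes G n)
      (inertia ρ.character) (fun p hp => inertia_ne ρ (mem_badPrimes.1 hp).1) w hw
  have hbad : badPrimes G n ⊆ n.primeFactors := fun p hp => (mem_badPrimes.1 hp).1
  set J := n.primeFactors \ (badPrimes G n \ J₀) with hJ
  have hJsub : J ⊆ n.primeFactors := Finset.sdiff_subset
  have hcompl : n.primeFactors \ J = badPrimes G n \ J₀ := by
    rw [hJ, Finset.sdiff_sdiff_eq_self]
    exact Finset.sdiff_subset.trans hbad
  have hcond : condF (valueField ρ.character) = n := rfl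
  refine ⟨J, hJsub, ?_, ?_, ?_⟩
  · rw [hcompl]; exact Finset.sdiff_subset
  · rw [hcompl]
    have h1 := Finset.sum_sdiff (f := w) hJ₀
    linarith
  · refine main_rel ρ hℓ (valueField ρ.character) le_rfl (d := pt n J)
      (by rw [hcond]; exact pt_dvd hc.ne' hJsub) ?_ ψ ?_
    · rw [hcond, div_pt hc.ne' hJsub]
      exact pt_coprime hJsub Finset.sdiff_subset Finset.disjoint_sdiff
    · intro p hp
      have h1 := mem_badPrimes.1 hp
      have h2 : p ∈ J := pt_primeFactors hJsub h1.1
      have h3 : p ∈ badPrimes G n := mem_badPrimes.2 ⟨hJsub h2, h1.2⟩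
      have h4 : p ∈ J₀ := by
        by_contra hc
        have h5 := (Finset.mem_sdiff.1 h2).2
        exact h5 (Finset.mem_sdiff.2 ⟨h3, hc⟩)
      have h6 := hgood p h4
      rw [← inertia_eq] at h6
      exact h6

theorem relfinrank_eig {G V : Type*} [Group G] [Finite G] [AddCommGroup V] [Module ℂ V]
    [FiniteDimensional ℂ V] (ρ : Representation ℂ G V) [ρ.IsIrreducible] {d : ℕ} (hd0 : 0 < d)
    {g : G} {z : ℂ} (hz : Module.End.HasEigenvalue (ρ g) z) (hdz : d ∣ orderOf z) :
    (valueField ρ.character).relfinrank (valueField ρ.character ⊔ cyc d) ≤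
      Module.finrank ℂ V := by
  have hpos := orderOf_pos_of_eigen ρ g hz
  refine le_trans ?_ (relfinrank_sup_le ρ g hz)
  refine relfinrank_mono le_sup_left (sup_le_sup_left (cyc_le_adjoin hd0 hpos.ne' hdz) _) ?_
  have h2 : FiniteDimensional ℚ (IntermediateField.adjoin ℚ {z}) := by
    apply IntermediateField.adjoin.finiteDimensional
    refine IsIntegral.of_pow hpos ?_
    rw [pow_orderOf_eq_one]
    exact isIntegral_one
  have h3 : FiniteDimensional ℚ (valueField ρ.character) :=
    finiteDimensional_of_le Nat.card_pos (valueField_le ρ)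
  exact IntermediateField.finiteDimensional_sup _ _

theorem orderOf_eig {G V : Type*} [Group G] [Finite G] [AddCommGroup V] [Module ℂ V]
    [FiniteDimensional ℂ V] (ρ : Representation ℂ G V) [ρ.IsIrreducible] {d : ℕ} (hd0 : 0 < d)
    {g : G} {z : ℂ} (hz : Module.End.HasEigenvalue (ρ g) z) (hdz : d ∣ orderOf z) :
    ∃ g : G, orderOf g = d := by
  have hdg : d ∣ orderOf g := hdz.trans (orderOf_dvd ρ g hz)
  refine ⟨g ^ (orderOf g / d), ?_⟩
  rw [orderOf_pow_of_dvd (Nat.div_pos (Nat.le_of_dvd (orderOf_pos g) hdg) hd0).ne'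
    (Nat.div_dvd_of_dvd hdg), Nat.div_div_self hdg (orderOf_pos g).ne']

/-- Deficiency with exponent `5/4`. -/
theorem deficiency {G V : Type*} [Group G] [Finite G] [AddCommGroup V] [Module ℂ V]
    [FiniteDimensional ℂ V] (ρ : Representation ℂ G V) [ρ.IsIrreducible] :
    (valueField ρ.character).relfinrank (cyc (conductor ρ.character)) ^ 4 ≤
      Module.finrank ℂ V ^ 5 := by
  classical
  set n := conductor ρ.character with hn
  set K := valueField ρ.character with hK
  have hc : 0 < n := conductor_pos ρ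
  have hKfin : FiniteDimensional ℚ K := finiteDimensional_of_le Nat.card_pos (valueField_le ρ)
  have hKn : K ≤ cyc n := valueField_le_conductor ρ
  obtain ⟨e, he, hI, hJ⟩ := exists_factors K hKfin (fun p => cyc (p ^ n.factorization p))
    (fun p => by
      rcases Nat.eq_zero_or_pos (p ^ n.factorization p) with h | h
      · rw [h]
        have h1 : cyc 0 = cyc 1 := by simp [cyc]
        rw [h1]
        exact finiteDimensional_of_le one_pos le_rfl
      · exact finiteDimensional_of_le h le_rfl) n.primeFactors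
  have hbad : badPrimes G n ⊆ n.primeFactors := fun p hp => (mem_badPrimes.1 hp).1
  have hlog : ∀ p, 0 ≤ Real.log (e p) := fun p => Real.log_natCast_nonneg _
  obtain ⟨J, hJn, -, hwt, g, z, hz, hdz⟩ := exists_weight ρ (fun p => Real.log (e p))
    (fun p _ => hlog p)
  have hfull : K.relfinrank (cyc n) = ∏ p ∈ n.primeFactors, e p := by
    rw [← hI]
    congr 1
    apply le_antisymm
    · exact (cyc_le_iSup hc.ne').trans le_sup_right
    · refine sup_le hKn ((iSup_le_cyc (n := n) subset_rfl).trans ?_)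
      have h0 : ∏ p ∈ n.primeFactors, p ^ n.factorization p = n :=
        Nat.prod_factorization_pow_eq_self hc.ne'
      rw [h0]
  have hpart : ∏ p ∈ J, e p ≤ Module.finrank ℂ V := by
    refine (hJ J hJn).trans (le_trans ?_ (relfinrank_eig ρ (pt_pos hJn) hz hdz))
    refine relfinrank_mono le_sup_left (sup_le_sup_left (iSup_le_cyc hJn) _) ?_
    have h4 : FiniteDimensional ℚ (cyc (pt n J)) := finiteDimensional_of_le (pt_pos hJn) le_rfl
    exact IntermediateField.finiteDimensional_sup _ _
  have hV : 0 < Module.finrank ℂ V :=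
    lt_of_lt_of_le (Finset.prod_pos fun p _ => he p) hpart
  have h1 : ∑ p ∈ J, Real.log (e p) ≤ Real.log (Module.finrank ℂ V) := by
    rw [← Real.log_prod (fun p _ => by exact_mod_cast (he p).ne')]
    apply Real.log_le_log
    · exact_mod_cast Finset.prod_pos fun p _ => he p
    · exact_mod_cast hpart
  have h2 : Real.log (K.relfinrank (cyc n)) = ∑ p ∈ n.primeFactors, Real.log (e p) := by
    rw [hfull, Nat.cast_prod, Real.log_prod (fun p _ => by exact_mod_cast (he p).ne')]
  have h3 : ∑ p ∈ badPrimes G n, Real.log (e p) ≤ ∑ p ∈ n.primeFactors, Real.log (e p) :=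
    Finset.sum_le_sum_of_subset_of_nonneg hbad fun p _ _ => hlog p
  have h4 := Finset.sum_sdiff (f := fun p => Real.log (e p)) hJn
  have h5 : 4 * Real.log (K.relfinrank (cyc n)) ≤ 5 * Real.log (Module.finrank ℂ V) := by
    rw [h2]
    linarith
  have h6 : (0 : ℝ) < K.relfinrank (cyc n) := by
    rw [hfull]
    exact_mod_cast Finset.prod_pos fun p _ => he p
  have h7 : (0 : ℝ) < Module.finrank ℂ V := by exact_mod_cast hV
  have h8 : Real.log ((K.relfinrank (cyc n) : ℝ) ^ 4) ≤ Real.log ((Module.finrank ℂ V : ℝ) ^ 5) := by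
    rw [Real.log_pow, Real.log_pow]
    push_cast
    exact h5
  have h9 := (Real.log_le_log_iff (pow_pos h6 4) (pow_pos h7 5)).1 h8
  exact_mod_cast h9

/-- Approximate Feit, for weights. -/
theorem feit_weight {G V : Type*} [Group G] [Finite G] [AddCommGroup V] [Module ℂ V]
    [FiniteDimensional ℂ V] (ρ : Representation ℂ G V) [ρ.IsIrreducible] (w : ℕ → ℝ)
    (hw : ∀ p, 0 ≤ w p) :
    ∃ d : ℕ, d ∣ conductor ρ.character ∧ d.Coprime (conductor ρ.character / d) ∧
      (∀ p ∈ (conductor ρ.character / d).primeFactors, NoncyclicSylow G p) ∧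
      ∑ p ∈ (conductor ρ.character / d).primeFactors, w p ≤
        (∑ p ∈ badPrimes G (conductor ρ.character), w p) / 5 ∧
      (∃ g z, Module.End.HasEigenvalue (ρ g) z ∧ d ∣ orderOf z) ∧
      ∃ g : G, orderOf g = d := by
  classical
  set n := conductor ρ.character with hn
  have hc : 0 < n := conductor_pos ρ
  obtain ⟨J, hJn, hb, hwt, g, z, hz, hdz⟩ := exists_weight ρ w (fun p _ => hw p)
  have hs : (n / pt n J).primeFactors ⊆ n.primeFactors \ J := by
    intro p hp
    rw [div_pt hc.ne' hJn] at hp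
    exact pt_primeFactors Finset.sdiff_subset hp
  refine ⟨pt n J, pt_dvd hc.ne' hJn, ?_, ?_, ?_, ⟨g, z, hz, hdz⟩,
    orderOf_eig ρ (pt_pos hJn) hz hdz⟩
  · rw [div_pt hc.ne' hJn]
    exact pt_coprime hJn Finset.sdiff_subset Finset.disjoint_sdiff
  · exact fun p hp => (mem_badPrimes.1 (hb (hs hp))).2
  · exact (Finset.sum_le_sum_of_subset_of_nonneg hs fun p _ _ => hw p).trans hwt

/-- Approximate Feit: an element of order `d ∣ c(χ)` with `c(χ) ^ 4 ≤ d ^ 5`. -/
theorem feit_power {G V : Type*} [Group G] [Finite G] [AddCommGroup V] [Module ℂ V]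
    [FiniteDimensional ℂ V] (ρ : Representation ℂ G V) [ρ.IsIrreducible] :
    ∃ d : ℕ, d ∣ conductor ρ.character ∧ d.Coprime (conductor ρ.character / d) ∧
      (conductor ρ.character / d) ^ 5 ≤ ∏ p ∈ badPrimes G (conductor ρ.character),
        p ^ (conductor ρ.character).factorization p ∧
      conductor ρ.character ^ 4 ≤ d ^ 5 ∧
      (∃ g z, Module.End.HasEigenvalue (ρ g) z ∧ d ∣ orderOf z) ∧
      ∃ g : G, orderOf g = d := by
  classical
  set n := conductor ρ.character with hn
  have hc : 0 < n := conductor_pos ρ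
  have hbad : badPrimes G n ⊆ n.primeFactors := fun p hp => (mem_badPrimes.1 hp).1
  obtain ⟨J, hJn, hb, hwt, g, z, hz, hdz⟩ := exists_weight ρ
    (fun p => Real.log ((p ^ n.factorization p : ℕ) : ℝ)) (fun p _ => Real.log_natCast_nonneg _)
  have hlogpt : ∀ J' ⊆ n.primeFactors, Real.log (pt n J' : ℝ) =
      ∑ p ∈ J', Real.log ((p ^ n.factorization p : ℕ) : ℝ) := by
    intro J' hJ'
    unfold pt
    rw [Nat.cast_prod, Real.log_prod]
    intro p hp
    exact_mod_cast (pow_pos (Nat.prime_of_mem_primeFactors (hJ' hp)).pos _).ne'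
  have hq : (n / pt n J) ^ 5 ≤ pt n (badPrimes G n) := by
    have h1 : 5 * Real.log ((n / pt n J : ℕ) : ℝ) ≤ Real.log (pt n (badPrimes G n) : ℝ) := by
      rw [div_pt hc.ne' hJn, hlogpt _ Finset.sdiff_subset, hlogpt _ hbad]
      linarith
    have h2 : (0 : ℝ) < ((n / pt n J : ℕ) : ℝ) := by
      rw [div_pt hc.ne' hJn]
      exact_mod_cast pt_pos Finset.sdiff_subset
    have h3 : (0 : ℝ) < (pt n (badPrimes G n) : ℝ) := by exact_mod_cast pt_pos hbad
    have h4 : Real.log (((n / pt n J : ℕ) : ℝ) ^ 5) ≤ Real.log (pt n (badPrimes G n) : ℝ) := by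
      rw [Real.log_pow]
      push_cast
      exact h1
    have h5 := (Real.log_le_log_iff (pow_pos h2 5) h3).1 h4
    exact_mod_cast h5
  refine ⟨pt n J, pt_dvd hc.ne' hJn, ?_, hq, ?_, ⟨g, z, hz, hdz⟩,
    orderOf_eig ρ (pt_pos hJn) hz hdz⟩
  · rw [div_pt hc.ne' hJn]
    exact pt_coprime hJn Finset.sdiff_subset Finset.disjoint_sdiff
  · have h1 : pt n (badPrimes G n) ≤ n := Nat.le_of_dvd hc (pt_dvd hc.ne' hbad)
    have h2 : pt n J * (n / pt n J) = n := Nat.mul_div_cancel' (pt_dvd hc.ne' hJn)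
    have h3 : n ^ 5 ≤ n * pt n J ^ 5 := by
      calc n ^ 5 = pt n J ^ 5 * (n / pt n J) ^ 5 := by rw [← mul_pow, h2]
        _ ≤ pt n J ^ 5 * n := Nat.mul_le_mul_left _ (hq.trans h1)
        _ = n * pt n J ^ 5 := mul_comm _ _
    have h4 : n * n ^ 4 ≤ n * pt n J ^ 5 := by rw [← pow_succ']; exact h3
    exact Nat.le_of_mul_le_mul_left h4 hc

end Pool.Agent.DF26
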